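import Mathlib
import Pool.Agent.Q249.AlmostGolomb
import Pool.Agent.Q249.AlmostGolomb2

/-!
# MP_ac9862_nt: maximal multiplicities in almost Golomb sequences

We prove the full statement of Q1, together with the two auxiliary statements (i) and (ii) of the
problem file.

Definitions (in `Q249.AlmostGolomb`):
* `sm r a n = a n + a (n-1) + ... + a (n-r+1)`, with `a k = 0` for `k ≤ 0`;
* `Adm r a`: `a 0 = 0`, `a n ≥ 1` for `n ≥ 1`, `a` nondecreasing and `a (sm r a n) = n` for `n ≥ 1`;
* `IsAlmostGolomb r a`: `a` is admissible and greedy, that is, for every `n` the value `a n` is the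
  least possible among all admissible sequences with the same values at the indices `< n`;
* `mult a n` is the number of `i ≥ 1` with `a i = n` and `M a = sup_n mult a n`;
* `IsGolomb G`: Golomb's sequence; `SG G n = G 1 + ... + G n`.

The literal form of the last condition in the problem file (with the identity evaluated in the final
sequence) fails at `n = 2`, `m = 1`, since `a(1) = 1` and `a(2) = 2` are forced and
`a(1 + a(1)) = a(2) = 2`; the greedy rule is therefore stated as lexicographic minimality.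

Proof.  `a` takes the value `m ≥ 3` exactly on `[s(m), s(m+1))`, so `N(m) = a(m+1) - a(m+1-r)`.  If
all earlier gaps `N(m)` are at most `c`, then every window of `c` consecutive positions contains
the start of a block; summing over `r` windows gives `s(x+c) - s(x) ≥ r`, which bounds the number
of starts in a window of length `r`, that is the next gap, by `c` again.
-/

namespace Pool.Agent.Results.MP_ac9862_nt.Thresholds

open Q249.AlmostGolomb

/-- `j a k` is the least `r ≥ 2` with `M(r) ≥ k`. -/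
noncomputable def j (a : ℕ → ℕ → ℕ) (k : ℕ) : ℕ := sInf {r | 2 ≤ r ∧ k ≤ M (a r)}

theorem finite_fibre (r : ℕ) (hr : 2 ≤ r) (n : ℕ) : {i | 1 ≤ i ∧ al r i = n}.Finite := by
  apply (Set.finite_Iio (sm r (al r) (n+3))).subset
  rintro i ⟨_, h⟩
  have := (le_al_iff r hr (n+3) i (by omega)).not.1 (by omega)
  exact not_le.1 this

theorem mult_bdd (r : ℕ) (hr : 2 ≤ r) : BddAbove (Set.range (mult (al r))) := by
  rcases Nat.lt_or_ge r 3 with h | h
  · have : r = 2 := by omega
    subst this
    refine ⟨2, ?_⟩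
    rintro _ ⟨m, rfl⟩
    exact mult_le_two m
  · refine ⟨max 3 (al r r), ?_⟩
    rintro _ ⟨m, rfl⟩
    exact mult_le h (le_max_left _ _) (le_max_right _ _) m

theorem M_eq_mult (r : ℕ) (hr : 5 ≤ r) : M (al r) = mult (al r) (r-1) := by
  rw [M_eq r hr]
  have h1 := mult_ge_three r (by omega) (r-1) (by omega)
  rw [show r - 1 + 1 - r = 0 by omega, al_zero, show r - 1 + 1 = r by omega] at h1
  omega

/-- **MP_ac9862_nt, Q1**, with statements (i) and (ii) of the problem file. -/
theorem result :
    (∀ r, 2 ≤ r → ∃! a, IsAlmostGolomb r a) ∧ (∃! G, IsGolomb G) ∧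
    ∀ (a : ℕ → ℕ → ℕ) (G : ℕ → ℕ), (∀ r, 2 ≤ r → IsAlmostGolomb r (a r)) → IsGolomb G →
      (∀ r, 2 ≤ r → (∀ n, {i | 1 ≤ i ∧ a r i = n}.Finite) ∧ BddAbove (Set.range (mult (a r))) ∧
        ∀ m, 3 ≤ m → mult (a r) m + a r (m + 1 - r) = a r (m + 1)) ∧
      (∀ r, 3 ≤ r → G (r - 1) = a r r) ∧
      (∀ r, 5 ≤ r → mult (a r) (r - 1) = M (a r)) ∧
      (∀ k, 4 ≤ k → {r | 2 ≤ r ∧ k ≤ M (a r)}.Nonempty ∧
        j a k = SG G (k - 1) + 2 ∧ j a (k + 1) = j a k + G k) := by
  refine ⟨fun r hr => ⟨al r, isAlmostGolomb_al r hr, fun b hb =>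
      unique_aux hb (isAlmostGolomb_al r hr)⟩,
    ⟨gg, isGolomb_gg, fun G hG => golomb_unique hG isGolomb_gg⟩, ?_⟩
  intro a G ha hG
  have haa : ∀ r, 2 ≤ r → a r = al r := fun r hr => unique_aux (ha r hr) (isAlmostGolomb_al r hr)
  refine ⟨?_, ?_, ?_, ?_⟩
  · intro r hr
    rw [haa r hr]
    exact ⟨finite_fibre r hr, mult_bdd r hr, mult_ge_three r hr⟩
  · intro r hr
    rw [haa r (by omega), al_eq_golomb hG r hr r hr le_rfl]
  · intro r hr
    rw [haa r (by omega), M_eq_mult r hr]
  · have hset : ∀ k, {r | 2 ≤ r ∧ k ≤ M (a r)} = {r | 2 ≤ r ∧ k ≤ M (al r)} := by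
      intro k
      ext r
      simp only [Set.mem_ofPred_eq]
      constructor
      · rintro ⟨h1, h2⟩
        exact ⟨h1, by rwa [haa r h1] at h2⟩
      · rintro ⟨h1, h2⟩
        exact ⟨h1, by rwa [haa r h1]⟩
    have hj : ∀ k, 4 ≤ k → j a k = SG G (k-1) + 2 := by
      intro k hk
      unfold j
      rw [hset k]
      exact (threshold hG k hk).csInf_eq
    intro k hk
    refine ⟨?_, hj k hk, ?_⟩
    · rw [hset k]
      exact ⟨_, (threshold hG k hk).1⟩
    · rw [hj k hk, hj (k+1) (by omega)]
      obtain ⟨q, rfl⟩ : ∃ q, k = q + 1 := ⟨k-1, by omega⟩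
      rw [show q + 1 + 1 - 1 = q + 1 by omega, show q + 1 - 1 = q by omega, SG_succ]
      omega

end Pool.Agent.Results.MP_ac9862_nt.Thresholds
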